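import Mathlib
import Pool.Agent.H.MP_7589f8_co.A

set_option autoImplicit false

namespace Pool.Agent.Results.MP_7589f8_co.No

/-- Planar: no `K5` minor and no `K33` minor (Wagner). -/
def IsPlanar {V : Type} (G : SimpleGraph V) : Prop :=
  (¬ ∃ f : Fin 5 → Set V, (∀ i, (G.induce (f i)).Connected) ∧
      (∀ i j, i ≠ j → Disjoint (f i) (f j)) ∧
      (∀ i j, i ≠ j → ∃ u ∈ f i, ∃ v ∈ f j, G.Adj u v)) ∧
  (¬ ∃ f : Fin 3 ⊕ Fin 3 → Set V, (∀ i, (G.induce (f i)).Connected) ∧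
      (∀ i j, i ≠ j → Disjoint (f i) (f j)) ∧
      (∀ i j : Fin 3, ∃ u ∈ f (.inl i), ∃ v ∈ f (.inr j), G.Adj u v))

/-- Maximal planar: planar, and adding any new edge destroys planarity. -/
def IsMaxPlanar {V : Type} (G : SimpleGraph V) : Prop :=
  IsPlanar G ∧ ∀ u v, u ≠ v → ¬ G.Adj u v → ¬ IsPlanar (G ⊔ SimpleGraph.edge u v)

/-- An orientation: every edge gets exactly one direction, non-edges get none. -/
def IsOrientation {V : Type} (G : SimpleGraph V) (D : V → V → Prop) : Prop :=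
  (∀ u v, D u v → G.Adj u v) ∧ ∀ u v, G.Adj u v → (D u v ↔ ¬ D v u)

theorem result : ∃ G : SimpleGraph (Fin 58), IsMaxPlanar G ∧
    ∀ D : Fin 58 → Fin 58 → Prop, IsOrientation G D →
      ∃ v, 2 ≤ {w | D v w}.ncard ∧ 2 ≤ {w | D w v}.ncard := by
  classical
  have h0 : IsPlanar H.MP_7589f8_co.G := H.MP_7589f8_co.planarG
  obtain ⟨G, le, mx⟩ := Finite.exists_le_maximal (p := fun G : SimpleGraph (Fin 58) => IsPlanar G) h0
  refine ⟨G, ⟨mx.1, fun u v huv na pl => na ?_⟩, fun D hD => ?_⟩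
  · exact mx.2 pl le_sup_left (Or.inr ((SimpleGraph.edge_adj u v u v).2 ⟨Or.inl ⟨rfl, rfl⟩, huv⟩))
  · by_contra c
    push Not at c
    have one : ∀ (s : Set (Fin 58)), s.ncard < 2 → ∃ a, ∀ b ∈ s, a = b := by
      intro s hs
      rcases s.eq_empty_or_nonempty with rfl | ⟨a, ha⟩
      · exact ⟨0, by simp⟩
      · exact ⟨a, fun b hb => (Set.ncard_le_one (Set.toFinite s)).1 (by omega) a ha b hb⟩
    have ex : ∀ v, ∃ a, (2 ≤ {w | D v w}.ncard → ∀ b, D b v → a = b) ∧
        (¬ 2 ≤ {w | D v w}.ncard → ∀ b, D v b → a = b) := by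
      intro v
      by_cases h : 2 ≤ {w | D v w}.ncard
      · obtain ⟨a, ha⟩ := one _ (c v h)
        exact ⟨a, fun _ b hb => ha b hb, fun k => (k h).elim⟩
      · obtain ⟨a, ha⟩ := one _ (not_le.1 h)
        exact ⟨a, fun k => (h k).elim, fun _ b hb => ha b hb⟩
    choose p hp using ex
    refine H.MP_7589f8_co.main (fun v => decide (2 ≤ {w | D v w}.ncard)) p fun u v a e => ?_
    have e' := decide_eq_decide.1 e
    have o := hD.2 u v (le a)
    by_cases h : 2 ≤ {w | D u w}.ncard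
    · by_cases d : D u v
      · exact Or.inr ((hp v).1 (e'.1 h) u d)
      · exact Or.inl ((hp u).1 h v (by tauto))
    · by_cases d : D u v
      · exact Or.inl ((hp u).2 h v d)
      · exact Or.inr ((hp v).2 (fun k => h (e'.2 k)) u (by tauto))

end Pool.Agent.Results.MP_7589f8_co.No
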